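import Pool.Agent.helper25.TW.Spec

/-!
# Project TWO (MP_f42afa_pr): relevant sites and the final theorem
-/

set_option autoImplicit false

namespace TP.TW

open DP MeasureTheory Finset

theorem TWO_prob : IsProbabilityMeasure P1 := by
  unfold P1
  infer_instance

/-- The site `p` is relevant for the configuration `x` seen on `A`: `p` is not in `A`, and some
configuration equal to `x` on `A` has a crossing which is destroyed by a change at `p`. -/
def Rel (n : ℕ) (A : Finset (Fin n × Fin n)) (x : Fin n × Fin n → Bool) (p : Fin n × Fin n) : Prop :=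
  p ∉ A ∧ ∃ y y' : Fin n × Fin n → Bool, (∀ q ∈ A, y q = x q) ∧ (∀ q, q ≠ p → y' q = y q) ∧
    Crossing n y ∧ ¬ Crossing n y'

theorem phi_inj {n : ℕ} : Function.Injective (phi (n := n)) := by
  intro p q h
  simp only [phi, Prod.mk.injEq] at h
  obtain ⟨h1, h2⟩ := h
  ext <;> omega

theorem phi_br {n : ℕ} (p : Fin n × Fin n) : br (phi p) = phi p := by
  apply br_of_even
  simp only [phi]
  omega

theorem phi_rh {n : ℕ} (p : Fin n × Fin n) : phi p ∈ rh ((n : ℤ) - 1) := by
  have h1 := p.1.2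
  have h2 := p.2.2
  simp only [rh, phi, Set.mem_setOf_eq]
  omega

theorem rel_of_not_bad (rea : REA_stmt) (reb : REB_stmt) (br1 : BR1_stmt) {n : ℕ} (hn : 1 ≤ n)
    (A : Finset (Fin n × Fin n)) (β : V → Bool) (p : Fin n × Fin n) (hp : p ∉ A)
    (hb : ¬ BAD (col β) (A.image phi) (phi p)) : Rel n A (fun q => β (phi q)) p := by
  have hpS : phi p ∉ A.image phi := fun h => by
    obtain ⟨q, hq, h⟩ := Finset.mem_image.mp h
    exact hp (phi_inj h ▸ hq)
  have h0 : (0 : ℤ) ≤ (n : ℤ) - 1 := by omega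
  refine ⟨hp, fun q => fil β (A.image phi) (phi p) true (phi q),
    fun q => fil β (A.image phi) (phi p) false (phi q), ?_, ?_, ?_, ?_⟩
  · intro q hq
    simp only [fil, if_pos (Finset.mem_image_of_mem phi hq)]
  · intro q hq
    have : phi q ≠ phi p := fun h => hq (phi_inj h)
    simp only [fil, if_neg this]
  · exact (br1 n _ hn).mpr (rea β _ _ _ h0 (phi_rh p) (phi_br p) hpS hb)
  · exact fun h => reb β _ _ _ h0 (phi_rh p) (phi_br p) hpS hb ((br1 n _ hn).mp h)

open Classical in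
/-- If few sites are known, on average at least half of the sites are relevant. -/
def REL_stmt : Prop := ∃ c : ℝ, 0 < c ∧ c ≤ 1 / 2 ∧ ∀ n : ℕ, 2 ≤ n → ∀ A : Finset (Fin n × Fin n),
  (#A : ℝ) ≤ c * (n : ℝ) ^ 2 / Real.log n →
  (n : ℝ) ^ 2 / 2 ≤ (∑ x : Fin n × Fin n → Bool, (#{p : Fin n × Fin n | Rel n A x p} : ℝ)) / 2 ^ (n * n)

theorem TWO_log {n : ℕ} (hn : 2 ≤ n) : (1 : ℝ) / 2 ≤ Real.log n := by
  have h1 : Real.log 2 ≤ Real.log n := Real.log_le_log (by norm_num) (by exact_mod_cast hn)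
  have h2 := Real.log_two_gt_d9
  linarith

open Classical in
theorem REL (rea : REA_stmt) (reb : REB_stmt) (br1 : BR1_stmt) (br2 : BR2_stmt) (sum : SUM_stmt) :
    REL_stmt := by
  have := TWO_prob
  obtain ⟨C, hC, hsum⟩ := sum
  refine ⟨1 / (2 * (2 + C)), by positivity, ?_, fun n hn A hA => ?_⟩
  · rw [div_le_div_iff₀ (by positivity) (by norm_num)]
    linarith
  have hlog := TWO_log hn
  have hlog0 : (0 : ℝ) < Real.log n := by linarith
  have hn0 : (0 : ℝ) < n := by
    have : 0 < n := by omega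
    exact_mod_cast this
  -- each site outside A
  have key : ∀ p : Fin n × Fin n, p ∉ A →
      1 - Pr (Ev fun c => BAD c (A.image phi) (phi p)) ≤
        (#{x : Fin n × Fin n → Bool | Rel n A x p} : ℝ) / 2 ^ (n * n) := by
    intro p hp
    rw [← br2 n (fun x => Rel n A x p)]
    have hsub : (Set.univ : Set (V → Bool)) ⊆ (Ev fun c => BAD c (A.image phi) (phi p)) ∪
        {β : V → Bool | Rel n A (fun q => β (phi q)) p} := by
      intro β _
      by_cases hb : BAD (col β) (A.image phi) (phi p)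
      · exact Or.inl hb
      · exact Or.inr (rel_of_not_bad rea reb br1 (by omega) A β p hp hb)
    have h1 : (1 : ℝ) = P1.real Set.univ := by simp
    have h2 : P1.real Set.univ ≤ P1.real ((Ev fun c => BAD c (A.image phi) (phi p)) ∪
        {β : V → Bool | Rel n A (fun q => β (phi q)) p}) := measureReal_mono hsub
    have h3 := measureReal_union_le (μ := P1) (Ev fun c => BAD c (A.image phi) (phi p))
      {β : V → Bool | Rel n A (fun q => β (phi q)) p}
    have h4 : Pr (Ev fun c => BAD c (A.image phi) (phi p)) =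
      P1.real (Ev fun c => BAD c (A.image phi) (phi p)) := rfl
    have h5 : Pr {β : V → Bool | Rel n A (fun q => β (phi q)) p} =
      P1.real {β : V → Bool | Rel n A (fun q => β (phi q)) p} := rfl
    rw [h4, h5]
    linarith
  -- exchange of the sums
  have hex : (∑ x : Fin n × Fin n → Bool, (#{p : Fin n × Fin n | Rel n A x p} : ℝ)) =
      ∑ p : Fin n × Fin n, (#{x : Fin n × Fin n → Bool | Rel n A x p} : ℝ) := by
    simp only [Finset.card_filter, Nat.cast_sum]
    rw [Finset.sum_comm]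
  rw [hex, Finset.sum_div]
  have h1 : ∑ p ∈ Finset.univ \ A, (1 - Pr (Ev fun c => BAD c (A.image phi) (phi p))) ≤
      ∑ p : Fin n × Fin n, (#{x : Fin n × Fin n → Bool | Rel n A x p} : ℝ) / 2 ^ (n * n) := by
    refine le_trans (Finset.sum_le_sum fun p hp => key p (Finset.mem_sdiff.mp hp).2) ?_
    exact Finset.sum_le_sum_of_subset_of_nonneg (Finset.subset_univ _) fun p _ _ => by positivity
  have h2 : ∑ p ∈ Finset.univ \ A, (1 - Pr (Ev fun c => BAD c (A.image phi) (phi p))) =
      (#(Finset.univ \ A) : ℝ) -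
        ∑ p ∈ Finset.univ \ A, Pr (Ev fun c => BAD c (A.image phi) (phi p)) := by
    rw [Finset.sum_sub_distrib]
    simp
  have h3 : ∑ p ∈ Finset.univ \ A, Pr (Ev fun c => BAD c (A.image phi) (phi p)) ≤
      ∑ p : Fin n × Fin n, Pr (Ev fun c => BAD c (A.image phi) (phi p)) :=
    Finset.sum_le_sum_of_subset_of_nonneg (Finset.subset_univ _) fun p _ _ => measureReal_nonneg
  have h4 : ∑ p : Fin n × Fin n, Pr (Ev fun c => BAD c (A.image phi) (phi p)) =
      ∑ v₀ ∈ (Finset.univ : Finset (Fin n × Fin n)).image phi,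
        Pr (Ev fun c => BAD c (A.image phi) v₀) := by
    rw [Finset.sum_image fun p _ q _ h => phi_inj h]
  have h5 := hsum n (A.image phi) hn (Finset.image_subset_image (Finset.subset_univ _))
  have h6 : (#(A.image phi) : ℝ) = #A := by
    rw [Finset.card_image_of_injective _ phi_inj]
  have h7 : (#(Finset.univ \ A) : ℝ) = (n : ℝ) ^ 2 - #A := by
    rw [Finset.card_sdiff_of_subset (Finset.subset_univ _), Nat.cast_sub (Finset.card_le_card (Finset.subset_univ _))]
    simp [Fintype.card_prod, sq]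
  have h8 : (#A : ℝ) * Real.log n ≤ 1 / (2 * (2 + C)) * (n : ℝ) ^ 2 := by
    rwa [le_div_iff₀ hlog0] at hA
  have h9 : (0 : ℝ) ≤ #A := by positivity
  have h10 : (#A : ℝ) ≤ 2 * (#A * Real.log n) := by nlinarith
  have h11 : (2 + C) * (#A * Real.log n) ≤ (n : ℝ) ^ 2 / 2 := by
    calc (2 + C) * (#A * Real.log n) ≤ (2 + C) * (1 / (2 * (2 + C)) * (n : ℝ) ^ 2) :=
          mul_le_mul_of_nonneg_left h8 (by positivity)
      _ = (n : ℝ) ^ 2 / 2 := by field_simp
  rw [h6] at h5
  have h12 : C * #A * Real.log n = C * (#A * Real.log n) := by ring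
  rw [h12] at h5
  linarith

open Classical in
/-- **The final theorem.** -/
theorem FIN_main (rel : REL_stmt) : ∃ c : ℝ, 0 < c ∧ ∀ n : ℕ, 2 ≤ n →
    ∀ (F : ℕ → Finset (Fin n × Fin n)) (τ : (Fin n × Fin n → Bool) → ℕ)
      (B : (Fin n × Fin n → Bool) → Finset (Fin n × Fin n)), Monotone F →
      (∀ x y : Fin n × Fin n → Bool, (∀ p ∈ F (τ x), x p = y p) → τ y = τ x ∧ B y = B x) →
      (∀ x y : Fin n × Fin n → Bool, (∀ p ∈ F (τ x), x p = y p) → (∀ p ∈ B x, x p = y p) →
        (Crossing n x ↔ Crossing n y)) →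
      c * (n : ℝ) ^ 2 / Real.log n ≤
        (∑ x : Fin n × Fin n → Bool, (#(F (τ x) ∪ B x) : ℝ)) / 2 ^ (n * n) := by
  obtain ⟨c, hc, hc2, hrel⟩ := rel
  refine ⟨c / 2, by positivity, fun n hn F τ B hF hτ hcr => ?_⟩
  have hlog := TWO_log hn
  have hlog0 : (0 : ℝ) < Real.log n := by linarith
  have hn0 : (0 : ℝ) < n := by
    have : 0 < n := by omega
    exact_mod_cast this
  have hn2 : (0 : ℝ) < (n : ℝ) ^ 2 := by positivity
  obtain ⟨m, hm⟩ : ∃ m : ℝ, m = c * (n : ℝ) ^ 2 / Real.log n := ⟨_, rfl⟩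
  have hm0 : 0 ≤ m := by rw [hm]; positivity
  have hmn : m ≤ (n : ℝ) ^ 2 := by
    rw [hm, div_le_iff₀ hlog0]
    nlinarith
  have hgoal : c / 2 * (n : ℝ) ^ 2 / Real.log n = m / 2 := by rw [hm]; ring
  rw [hgoal]
  have hpow : (0 : ℝ) < 2 ^ (n * n) := by positivity
  have hcard : (Fintype.card (Fin n × Fin n → Bool) : ℝ) = 2 ^ (n * n) := by
    simp [Fintype.card_prod]
  by_cases hk : ∃ k, (#(F k) : ℝ) ≤ m
  · -- the largest of the sets with at most m elements
    obtain ⟨k, hkm, hkmax⟩ : ∃ k, (#(F k) : ℝ) ≤ m ∧ ∀ k', (#(F k') : ℝ) ≤ m → F k' ⊆ F k := by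
      have hfin : ({S : Finset (Fin n × Fin n) | ∃ k, F k = S ∧ (#(F k) : ℝ) ≤ m}).Finite :=
        Set.toFinite _
      obtain ⟨k0, hk0⟩ := hk
      obtain ⟨S, hS, hSmax⟩ := Set.exists_max_image _ (fun S : Finset (Fin n × Fin n) => #S) hfin
        ⟨F k0, k0, rfl, hk0⟩
      obtain ⟨k, rfl, hkm⟩ := hS
      refine ⟨k, hkm, fun k' hk' => ?_⟩
      rcases le_total k' k with h | h
      · exact hF h
      · exact (Finset.eq_of_subset_of_card_le (hF h) (hSmax (F k') ⟨k', rfl, hk'⟩)).symm.subset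
    have h1 := hrel n hn (F k) (by rw [← hm]; exact hkm)
    have hpt : ∀ x : Fin n × Fin n → Bool,
        m / (n : ℝ) ^ 2 * (#{p : Fin n × Fin n | Rel n (F k) x p} : ℝ) ≤ (#(F (τ x) ∪ B x) : ℝ) := by
      intro x
      have hr : (#{p : Fin n × Fin n | Rel n (F k) x p} : ℝ) ≤ (n : ℝ) ^ 2 := by
        have h := Finset.card_le_univ ({p : Fin n × Fin n | Rel n (F k) x p} : Finset _)
        have h' : Fintype.card (Fin n × Fin n) = n ^ 2 := by simp [Fintype.card_prod, sq]
        rw [h'] at h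
        exact_mod_cast h
      have hr0 : (0 : ℝ) ≤ (#{p : Fin n × Fin n | Rel n (F k) x p} : ℝ) := by positivity
      by_cases hx : (#(F (τ x)) : ℝ) ≤ m
      · have hsub := hkmax (τ x) hx
        have hB : ({p : Fin n × Fin n | Rel n (F k) x p} : Finset _) ⊆ F (τ x) ∪ B x := by
          intro p hp
          obtain ⟨hpA, y, y', hy, hy', hcy, hcy'⟩ := (Finset.mem_filter.mp hp).2
          by_contra hpB
          rw [Finset.mem_union, not_or] at hpB
          obtain ⟨hpF, hpB⟩ := hpB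
          have hxy : ∀ q ∈ F (τ x), x q = y q := fun q hq => (hy q (hsub hq)).symm
          obtain ⟨h2, h3⟩ := hτ x y hxy
          refine hcy' ((hcr y y' ?_ ?_).mp hcy)
          · intro q hq
            rw [h2] at hq
            exact (hy' q fun h => hpF (h ▸ hq)).symm
          · intro q hq
            rw [h3] at hq
            exact (hy' q fun h => hpB (h ▸ hq)).symm
        have h2 : (#{p : Fin n × Fin n | Rel n (F k) x p} : ℝ) ≤ (#(F (τ x) ∪ B x) : ℝ) := by
          exact_mod_cast Finset.card_le_card hB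
        refine le_trans ?_ h2
        have : m / (n : ℝ) ^ 2 ≤ 1 := (div_le_one hn2).mpr hmn
        nlinarith
      · push Not at hx
        have h2 : (#(F (τ x)) : ℝ) ≤ (#(F (τ x) ∪ B x) : ℝ) := by
          exact_mod_cast Finset.card_le_card Finset.subset_union_left
        have h3 : m / (n : ℝ) ^ 2 * (#{p : Fin n × Fin n | Rel n (F k) x p} : ℝ) ≤
            m / (n : ℝ) ^ 2 * (n : ℝ) ^ 2 := mul_le_mul_of_nonneg_left hr (by positivity)
        have h4 : m / (n : ℝ) ^ 2 * (n : ℝ) ^ 2 = m := by field_simp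
        linarith
    have h2 : m / (n : ℝ) ^ 2 * (∑ x : Fin n × Fin n → Bool,
        (#{p : Fin n × Fin n | Rel n (F k) x p} : ℝ)) ≤
        ∑ x : Fin n × Fin n → Bool, (#(F (τ x) ∪ B x) : ℝ) := by
      rw [Finset.mul_sum]
      exact Finset.sum_le_sum fun x _ => hpt x
    rw [le_div_iff₀ hpow]
    rw [le_div_iff₀ hpow] at h1
    refine le_trans ?_ h2
    have h3 : m / (n : ℝ) ^ 2 * ((n : ℝ) ^ 2 / 2 * 2 ^ (n * n)) ≤
        m / (n : ℝ) ^ 2 * (∑ x : Fin n × Fin n → Bool,
          (#{p : Fin n × Fin n | Rel n (F k) x p} : ℝ)) :=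
      mul_le_mul_of_nonneg_left h1 (by positivity)
    have h4 : m / (n : ℝ) ^ 2 * ((n : ℝ) ^ 2 / 2 * 2 ^ (n * n)) = m / 2 * 2 ^ (n * n) := by
      field_simp
    linarith
  · push Not at hk
    rw [le_div_iff₀ hpow]
    have h1 : ∑ _x : Fin n × Fin n → Bool, m ≤
        ∑ x : Fin n × Fin n → Bool, (#(F (τ x) ∪ B x) : ℝ) := by
      refine Finset.sum_le_sum fun x _ => le_trans (hk (τ x)).le ?_
      exact_mod_cast Finset.card_le_card Finset.subset_union_left
    rw [Finset.sum_const, nsmul_eq_mul, Finset.card_univ, hcard] at h1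
    nlinarith

end TP.TW
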