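import Pool.Agent.helper25.TWO.FIN
import Pool.Agent.helper58.TWO.ANR
import Pool.Agent.helper77.TWO.MNO
import Pool.Agent.helper81.TWO.CT0
import Pool.Agent.helper67.TWO.MEN
import Pool.Agent.helper27.TWO.DET
import Pool.Agent.helper63.TWO.REA
import Pool.Agent.helper11.TWO.REB
import Pool.Agent.helper95.TWO.CV
import Pool.Agent.helper71.TWO.BR1
import Pool.Agent.helper94.TWO.BR2
import Pool.Agent.helper1.TWO.LCR
import Pool.Agent.helper5.TWO.EIN
import Pool.Agent.helper60.TWO.BKM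
import Pool.Agent.helper43.TWO.QRS
import Pool.Agent.helper4.TWO.TRS
import Pool.Agent.helper72.TWO.VSP
import Pool.Agent.helper24.TWO.SPR
import Pool.Agent.helper96.TWO.SUM
import Pool.Agent.helper61.DP.AsmA
import Pool.Agent.helper61.TP.RSW
import Pool.Agent.helper61.TP.TQ
import Pool.Agent.helper61.TP.Sym
import Pool.Agent.helper64.TP.BBK

/-!
# Project TWO (MP_f42afa_pr): assembly
-/

set_option autoImplicit false

namespace TP.TW

open DP

theorem Asm_BKM : BKM_stmt := BKM LCR TP.Bbk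

theorem Asm_QRS : QRS_stmt := QRS TP.RSW DP.Asm_RC TP.RLM LCR

theorem Asm_VSP : VSP_stmt :=
  VSP MNO CT0 (MEN DP.Asm_HX) (DET DP.Asm_RC) LCR EIN Asm_BKM Asm_QRS (TRS TP.TSY LCR)

theorem Asm_SPR : SPR_stmt := SPR ANR Asm_VSP LCR

theorem Asm_SUM : SUM_stmt := SUM CV Asm_SPR LCR

theorem Asm_REL : REL_stmt := REL (REA (TP.TQD DP.Asm_HX)) REB BR1 BR2 Asm_SUM

end TP.TW
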