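import Pool.Agent.helper25.TWO.Asm
import Pool.Agent.helper25.TWO.FIN2
import Pool.Agent.helper61.TP.C12
import Pool.Agent.helper29.TWO.VITb
import Pool.Agent.helper58.TWO.LEV
import Pool.Agent.helper12.TWO.ARM
import Pool.Agent.helper73.TWO.LC2
import Pool.Agent.helper66.TWO.PRD
import Pool.Agent.helper42.TWO.TCP
import Pool.Agent.helper9.TWO.SRBb
import Pool.Agent.helper90.TWO.GDS
import Pool.Agent.helper5.TWO.DBLb
import Pool.Agent.helper82.TWO.SU2

/-!
# Project TWO (MP_f42afa_pr): assembly without logarithm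
-/

set_option autoImplicit false

namespace TP.TW

open DP

theorem Asm2_IND : IND_stmt := fun _ _ _ _ hd hF hF' => C2_indep hd hF hF'

theorem Asm2_PRD : PRD_stmt := PRD Asm_SPR LC2 Asm2_IND

theorem Asm2_TCP : TCP_stmt := TCP ARM Asm2_PRD

theorem Asm2_SRB : SRB_stmt := SRB LEV Asm2_TCP LCR LC2 EIN

theorem Asm2_SU2 : SU2_stmt := SU2 VIT Asm2_SRB (GDS CV) DBL

theorem Asm2_REL : REL2_stmt := REL2 (REA (TP.TQD DP.Asm_HX)) REB BR1 BR2 Asm2_SU2

end TP.TW
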